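import Pool.Agent.Lib.MP_4fbe7c_an.FC.Iface
import Pool.Agent.Lib.MP_4fbe7c_an.SD.Calc
import Pool.Agent.Lib.MP_4fbe7c_an.SD.Apri1
import Pool.Agent.Lib.MP_4fbe7c_an.SD.H95.Tools

/-!
Project FC (MP_4fbe7c_an), module FIN: from the extinction of all species but two to global
stability.
-/

set_option autoImplicit false

open Set MeasureTheory intervalIntegral

namespace Pool.Agent.Lib.MP_4fbe7c_an.FC.H95

open Pool.Agent.Lib.MP_4fbe7c_an.SD Pool.Agent.Lib.MP_4fbe7c_an.SD.H95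

theorem exp_small {C c δ t : ℝ} (hc : 0 < c) (hδ : 0 < δ) (ht : C / (c * δ) ≤ t) :
    C * Real.exp (-(c * t)) < δ := by
  have h1 : C ≤ δ * (c * t) := by
    rw [div_le_iff₀ (by positivity)] at ht
    linarith
  have h2 := Real.add_one_le_exp (c * t)
  have h3 : C < δ * Real.exp (c * t) := by
    have : δ * (c * t + 1) ≤ δ * Real.exp (c * t) := mul_le_mul_of_nonneg_left h2 hδ.le
    linarith
  have h4 : C * Real.exp (-(c * t)) < δ * Real.exp (c * t) * Real.exp (-(c * t)) :=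
    mul_lt_mul_of_pos_right h3 (Real.exp_pos _)
  rwa [mul_assoc, ← Real.exp_add, add_neg_cancel, Real.exp_zero, mul_one] at h4

theorem fin (h1 : PaStatement) (h2 : YBdStatement) (h3 : SupBStatement) (h4 : TwoStatement)
    (h5 : GtmStatement) (h6 : ClsStatement) (h7 : UpbStatement) (h8 : PhiStatement)
    (h9 : LocStatement) : FinStatement := by
  intro L M m θ θ' θ'' N d i₀ i₁ hL hm hnc hM0 hM hd₀ hdj hi hθ hext
  have hd : ∀ i, 0 < d i := by
    intro i
    by_cases h : i = i₀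
    · rw [h]; exact hd₀
    · exact hd₀.trans (hdj i h)
  intro ε hε
  obtain ⟨δ, hδ, hloc⟩ := h9 L m θ θ' θ'' N d i₀ hL hm hd hθ
    (fun j hj => h8 L (d i₀) (d j) m θ θ' θ'' hL hm hnc hd₀ (hdj j hj) hθ) ε hε
  refine ⟨δ, hδ, ?_⟩
  intro u v w hsol
  refine ⟨fun hinit => hloc u v w 0 hsol le_rfl hinit, ?_⟩
  intro hx
  have hctx : Ctx L M m d u v w := ⟨hL, hM0, hm, hM, hd, hsol⟩
  have hnn := nonneg hL hm hd hsol
  have hpres : Pres L u i₀ := (h1 L M m N d u v w hctx i₀).2 hx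
  obtain ⟨T1, hT1, hsup⟩ := h3 L M m N d u v w hctx
  obtain ⟨K0, T2, hT2, hyy⟩ := h2 L M m N d u v w i₀ hctx hpres
  obtain ⟨T3, hT3, hupb⟩ := h7 L M m θ θ' θ'' N d u v w i₀ hctx hθ δ hδ
  -- decay of the other species
  have hdec : ∀ k : Fin N, ∃ c C T : ℝ, 0 < c ∧ 0 ≤ C ∧ 0 ≤ T ∧ (k ≠ i₀ → k ≠ i₁ →
      ∀ t, T ≤ t → ∀ x ∈ Icc 0 L, u k t x ≤ C * Real.exp (-(c * t))) := by
    intro k
    by_cases hk : k ≠ i₀ ∧ k ≠ i₁
    · rcases (h1 L M m N d u v w hctx k).1 with hp | ha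
      · obtain ⟨c, C, T, hc, hb⟩ := hext u v w hsol hpres k hk.1 hk.2 hp
        refine ⟨c, max C 0, max T 0, hc, le_max_right _ _, le_max_right _ _, fun _ _ t ht x hx' => ?_⟩
        refine (hb t ((le_max_left _ _).trans ht) x hx').trans ?_
        exact mul_le_mul_of_nonneg_right (le_max_left _ _) (Real.exp_pos _).le
      · refine ⟨1, 0, 0, one_pos, le_rfl, le_rfl, fun _ _ t ht x hx' => ?_⟩
        rw [ha t ht x hx']
        simp
    · exact ⟨1, 0, 0, one_pos, le_rfl, le_rfl, fun h h' => absurd ⟨h, h'⟩ hk⟩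
  choose ck Ck Tk hck hCk hTk hdk using hdec
  have : Nonempty (Fin N) := ⟨i₀⟩
  obtain ⟨jc, hjc⟩ := Finite.exists_min ck
  obtain ⟨jT, hjT⟩ := Finite.exists_max Tk
  set c : ℝ := ck jc with hc
  set C : ℝ := ∑ k, Ck k with hC
  have hc0 : 0 < c := hck jc
  have hC0 : 0 ≤ C := Finset.sum_nonneg fun k _ => hCk k
  have hdk' : ∀ k, k ≠ i₀ → k ≠ i₁ → ∀ t, Tk jT ≤ t → ∀ x ∈ Icc 0 L,
      u k t x ≤ Ck k * Real.exp (-(c * t)) := by
    intro k hk hk' t ht x hx'
    have ht0 : 0 ≤ t := (hTk jT).trans ht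
    refine (hdk k hk hk' t ((hjT k).trans ht) x hx').trans ?_
    refine mul_le_mul_of_nonneg_left ?_ (hCk k)
    apply Real.exp_le_exp.mpr
    have : c * t ≤ ck k * t := mul_le_mul_of_nonneg_right (hjc k) ht0
    linarith
  -- the bound for the perturbation
  have hθc := st_c0 hθ
  obtain ⟨Th, hTh, hThb⟩ := exists_bound hθc
  have hsum : ∀ t, Tk jT ≤ t → ∀ x ∈ Icc 0 L,
      ∑ k ∈ (Finset.univ.erase i₀).erase i₁, u k t x ≤ C * Real.exp (-(c * t)) := by
    intro t ht x hx'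
    have ht0 : 0 ≤ t := (hTk jT).trans ht
    calc ∑ k ∈ (Finset.univ.erase i₀).erase i₁, u k t x
        ≤ ∑ k ∈ (Finset.univ.erase i₀).erase i₁, Ck k * Real.exp (-(c * t)) := by
          refine Finset.sum_le_sum fun k hk => ?_
          rw [Finset.mem_erase, Finset.mem_erase] at hk
          exact hdk' k hk.2.1 hk.1 t ht x hx'
      _ ≤ ∑ k, Ck k * Real.exp (-(c * t)) := by
          refine Finset.sum_le_sum_of_subset_of_nonneg (Finset.subset_univ _) fun k _ _ => ?_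
          exact mul_nonneg (hCk k) (Real.exp_pos _).le
      _ = C * Real.exp (-(c * t)) := by rw [hC, Finset.sum_mul]
  have hint : ∀ t, Tk jT ≤ t → 0 < t →
      ∫ x in (0)..L, θ x ^ 2 * ∑ k ∈ (Finset.univ.erase i₀).erase i₁, u k t x ≤
        (Th ^ 2 * C * L) * Real.exp (-(c * t)) := by
    intro t ht ht0
    have hcont : ContinuousOn (fun x => θ x ^ 2 * ∑ k ∈ (Finset.univ.erase i₀).erase i₁, u k t x)
        (Icc 0 L) := by
      refine (hθc.pow 2).mul (continuousOn_finsetSum _ fun k _ => ?_)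
      exact slice (hsol.cu k) (mem_Ici.mpr ht0.le)
    calc ∫ x in (0)..L, θ x ^ 2 * ∑ k ∈ (Finset.univ.erase i₀).erase i₁, u k t x
        ≤ ∫ _x in (0)..L, Th ^ 2 * (C * Real.exp (-(c * t))) := by
          refine integral_mono_on hL.le (intble hcont ⟨le_rfl, hL.le⟩ ⟨hL.le, le_rfl⟩)
            intervalIntegrable_const ?_
          intro x hx'
          have e1 : 0 ≤ ∑ k ∈ (Finset.univ.erase i₀).erase i₁, u k t x :=
            Finset.sum_nonneg fun k _ => hnn k t ht0.le x hx'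
          have e2 : θ x ^ 2 ≤ Th ^ 2 := by
            have := hThb x hx'
            rw [← sq_abs (θ x)]
            exact pow_le_pow_left₀ (abs_nonneg _) this 2
          exact mul_le_mul e2 (hsum t ht x hx') e1 (by positivity)
      _ = (Th ^ 2 * C * L) * Real.exp (-(c * t)) := by
          rw [intervalIntegral.integral_const, smul_eq_mul]
          ring
  -- the constant `K`
  have hyy0 : ∀ t, 0 ≤ yy L u v i₀ t := fun t => by
    unfold yy
    exact integral_nonneg hL.le fun x _ => sq_nonneg _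
  obtain ⟨δ', hδ', hcls⟩ := h6 L (d i₀) (d i₁) ((M + 1) ^ 2 * K0) δ m θ θ' θ'' hL hm hnc hd₀
    (hdj i₁ hi) hθ hδ
  have htwo := fun t (ht : 0 < t) => h4 L M m θ θ' θ'' N d u v w i₀ i₁ hctx hθ hi hpres t ht
  have hex : ∀ t : ℝ, ∃ F' : ℝ, 0 < t → HasDerivAt (Ff L θ u i₀ i₁) F' t ∧
        F' ≤ -Dis L (d i₀) (d i₁) θ θ' (u i₀ t) (u i₁ t) (v i₁ t) +
          ∫ x in (0)..L, θ x ^ 2 * ∑ k ∈ (Finset.univ.erase i₀).erase i₁, u k t x := by
    intro t
    by_cases ht : 0 < t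
    · obtain ⟨-, F', hF'⟩ := htwo t ht
      exact ⟨F', fun _ => hF'⟩
    · exact ⟨0, fun h => absurd h ht⟩
  choose F' hF' using hex
  set T4 : ℝ := max (Tk jT) 1 with hT4
  have hT40 : 0 < T4 := lt_of_lt_of_le one_pos (le_max_right _ _)
  obtain ⟨t, ht1, ht2, hDis⟩ := h5 (Ff L θ u i₀ i₁) F'
    (fun t => Dis L (d i₀) (d i₁) θ θ' (u i₀ t) (u i₁ t) (v i₁ t)) T4 c (Th ^ 2 * C * L) 0 hc0
    (fun t ht => (hF' t (hT40.trans_le ht)).1)
    (fun t ht => by
      have e1 := (hF' t (hT40.trans_le ht)).2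
      have e2 := hint t ((le_max_left _ _).trans ht) (hT40.trans_le ht)
      linarith)
    (fun t ht => by
      have := (htwo t (hT40.trans_le ht)).1
      linarith)
    δ' (max (max T1 T2) (max T3 (C / (c * δ)))) hδ'
  have ht0 : 0 < t := hT40.trans_le ht2
  have hTt1 : T1 ≤ t := ((le_max_left _ _).trans (le_max_left _ _)).trans ht1
  have hTt2 : T2 ≤ t := ((le_max_right _ _).trans (le_max_left _ _)).trans ht1
  have hTt3 : T3 ≤ t := ((le_max_left _ _).trans (le_max_right _ _)).trans ht1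
  have hTt5 : C / (c * δ) ≤ t := ((le_max_right _ _).trans (le_max_right _ _)).trans ht1
  have hTtk : Tk jT ≤ t := (le_max_left _ _).trans ht2
  have hvc : ContinuousOn (v i₀ t) (Icc 0 L) := slice (hsol.cv i₀) (mem_Ioi.mpr ht0)
  have hvc1 : ContinuousOn (v i₁ t) (Icc 0 L) := slice (hsol.cv i₁) (mem_Ioi.mpr ht0)
  have huc : ContinuousOn (u i₀ t) (Icc 0 L) := slice (hsol.cu i₀) (mem_Ici.mpr ht0.le)
  have hv2 : ∫ x in (0)..L, v i₀ t x ^ 2 ≤ (M + 1) ^ 2 * K0 := by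
    have hcq : ContinuousOn (fun x => (v i₀ t x / u i₀ t x) ^ 2) (Icc 0 L) :=
      (hvc.div huc fun x hx' => (hpres t ht0 x hx').ne').pow 2
    calc ∫ x in (0)..L, v i₀ t x ^ 2
        ≤ ∫ x in (0)..L, (M + 1) ^ 2 * (v i₀ t x / u i₀ t x) ^ 2 := by
          refine integral_mono_on hL.le (intble (hvc.pow 2) ⟨le_rfl, hL.le⟩ ⟨hL.le, le_rfl⟩)
            ((intble hcq ⟨le_rfl, hL.le⟩ ⟨hL.le, le_rfl⟩).const_mul _) ?_
          intro x hx'
          have e1 := hpres t ht0 x hx'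
          have e2 := hsup t hTt1 x hx' i₀
          have e3 : v i₀ t x ^ 2 = u i₀ t x ^ 2 * (v i₀ t x / u i₀ t x) ^ 2 := by
            field_simp
          rw [e3]
          refine mul_le_mul_of_nonneg_right ?_ (sq_nonneg _)
          exact pow_le_pow_left₀ e1.le e2 2
      _ = (M + 1) ^ 2 * yy L u v i₀ t := by
          rw [intervalIntegral.integral_const_mul]; rfl
      _ ≤ (M + 1) ^ 2 * K0 := mul_le_mul_of_nonneg_left (hyy t hTt2) (sq_nonneg _)
  have hfin := hcls (u i₀ t) (v i₀ t) (u i₁ t) (v i₁ t) (hsol.dx i₀ t ht0) (hsol.dx i₁ t ht0)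
    hvc hvc1 (fun x hx' => ⟨hpres t ht0 x hx', hnn i₁ t ht0.le x hx'⟩) hv2 hDis.le
  refine ⟨t, hloc u v w t hsol ht0.le ?_⟩
  intro x hx'
  refine ⟨?_, ?_⟩
  · have e1 := (hfin x hx').2
    have e2 := hupb t hTt3 x hx'
    rw [abs_lt]
    constructor <;> linarith
  · intro j hj
    by_cases hj1 : j = i₁
    · rw [hj1]; exact (hfin x hx').1
    · have e1 := hdk' j hj hj1 t hTtk x hx'
      have e2 : Ck j ≤ C := Finset.single_le_sum (fun k _ => hCk k) (Finset.mem_univ j)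
      have e3 := exp_small (C := C) hc0 hδ hTt5
      have e4 : Ck j * Real.exp (-(c * t)) ≤ C * Real.exp (-(c * t)) :=
        mul_le_mul_of_nonneg_right e2 (Real.exp_pos _).le
      linarith

end Pool.Agent.Lib.MP_4fbe7c_an.FC.H95
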