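import Pool.Agent.Lib.MP_4fbe7c_an.FC.Iface
import Pool.Agent.Lib.MP_4fbe7c_an.SD.Apri1
import Pool.Agent.Lib.MP_4fbe7c_an.SD.H95.Tools

/-!
Project FC (MP_4fbe7c_an), module LOC: local stability, from any time `s`.
-/

set_option autoImplicit false

open Set

namespace Pool.Agent.Lib.MP_4fbe7c_an.FC.H95

open Pool.Agent.Lib.MP_4fbe7c_an.SD Pool.Agent.Lib.MP_4fbe7c_an.SD.H95

section

variable {L : ℝ} {m : ℝ → ℝ} {N : ℕ} {d : Fin N → ℝ} {u v w : Fin N → ℝ → ℝ → ℝ}

theorem snd_cont {f : ℝ → ℝ} (hf : ContinuousOn f (Icc 0 L)) (A : Set ℝ) :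
    ContinuousOn (fun p : ℝ × ℝ => f p.2) (A ×ˢ Icc 0 L) :=
  hf.comp continuousOn_snd fun _ hp => hp.2

/-- Comparison with a stationary supersolution. -/
theorem le_stat (hL : 0 < L) (hd : ∀ i, 0 < d i) (h : Sol L m d u v w) (i : Fin N)
    {s T K : ℝ} (hs : 0 ≤ s) (hsT : s ≤ T) {W W1 W2 c : ℝ → ℝ} (d1 : DerivOn L W W1)
    (d2 : DerivOn L W1 W2) (b0 : W1 0 = 0) (bL : W1 L = 0) (hK : ∀ x ∈ Icc 0 L, c x ≤ K)
    (ineq : ∀ t ∈ Ioc s T, ∀ x ∈ Icc 0 L, W x < u i t x →
      d i * W2 x + u i t x * (m x - ∑ j, u j t x) ≤ c x * (u i t x - W x))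
    (h0 : ∀ x ∈ Icc 0 L, u i s x ≤ W x) :
    ∀ t ∈ Icc s T, ∀ x ∈ Icc 0 L, u i t x ≤ W x := by
  have hsub : Icc s T ×ˢ Icc 0 L ⊆ Ici 0 ×ˢ Icc 0 L :=
    prod_mono (fun t ht => hs.trans ht.1) (fun _ h => h)
  have hpos : ∀ t ∈ Ioc s T, 0 < t := fun t ht => lt_of_le_of_lt hs ht.1
  have := comparison (w := fun t x => u i t x - W x) (wx := fun t x => v i t x - W1 x)
    (wxx := fun t x => w i t x - W2 x)
    (wt := fun t x => d i * w i t x + u i t x * (m x - ∑ j, u j t x))
    (c := fun _ x => c x) (d := d i) (K := K) (s := s) (T := T) hL (hd i).le hsT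
    (((h.cu i).mono hsub).sub (snd_cont (DerivOn.cont d1) _))
    (fun t ht y hy => (h.dx i t (hpos t ht) y hy).sub (d1 y hy))
    (fun t ht y hy => (h.dxx i t (hpos t ht) y hy).sub (d2 y hy))
    (fun t ht => by simp [h.b0 i t (hpos t ht), b0])
    (fun t ht => by simp [h.bL i t (hpos t ht), bL])
    (fun t ht y hy => (h.dt i t (hpos t ht) y hy).sub_const _)
    (fun t ht y hy hw => by
      have h1 := ineq t ht y hy (by
        have : 0 < u i t y - W y := hw
        linarith)
      show d i * w i t y + u i t y * (m y - ∑ j, u j t y) ≤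
        d i * (w i t y - W2 y) + c y * (u i t y - W y)
      nlinarith)
    (fun t _ y hy => hK y hy)
    (fun y hy => by
      have := h0 y hy
      show u i s y - W y ≤ 0
      linarith)
  intro t ht x hx
  have h2 : u i t x - W x ≤ 0 := this t ht x hx
  linarith

/-- Comparison with a stationary subsolution. -/
theorem stat_le (hL : 0 < L) (hd : ∀ i, 0 < d i) (h : Sol L m d u v w) (i : Fin N)
    {s T K : ℝ} (hs : 0 ≤ s) (hsT : s ≤ T) {W W1 W2 c : ℝ → ℝ} (d1 : DerivOn L W W1)
    (d2 : DerivOn L W1 W2) (b0 : W1 0 = 0) (bL : W1 L = 0) (hK : ∀ x ∈ Icc 0 L, c x ≤ K)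
    (ineq : ∀ t ∈ Ioc s T, ∀ x ∈ Icc 0 L, u i t x < W x →
      -(u i t x * (m x - ∑ j, u j t x)) ≤ d i * W2 x + c x * (W x - u i t x))
    (h0 : ∀ x ∈ Icc 0 L, W x ≤ u i s x) :
    ∀ t ∈ Icc s T, ∀ x ∈ Icc 0 L, W x ≤ u i t x := by
  have hsub : Icc s T ×ˢ Icc 0 L ⊆ Ici 0 ×ˢ Icc 0 L :=
    prod_mono (fun t ht => hs.trans ht.1) (fun _ h => h)
  have hpos : ∀ t ∈ Ioc s T, 0 < t := fun t ht => lt_of_le_of_lt hs ht.1
  have := comparison (w := fun t x => W x - u i t x) (wx := fun t x => W1 x - v i t x)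
    (wxx := fun t x => W2 x - w i t x)
    (wt := fun t x => -(d i * w i t x + u i t x * (m x - ∑ j, u j t x)))
    (c := fun _ x => c x) (d := d i) (K := K) (s := s) (T := T) hL (hd i).le hsT
    ((snd_cont (DerivOn.cont d1) _).sub ((h.cu i).mono hsub))
    (fun t ht y hy => (d1 y hy).sub (h.dx i t (hpos t ht) y hy))
    (fun t ht y hy => (d2 y hy).sub (h.dxx i t (hpos t ht) y hy))
    (fun t ht => by simp [h.b0 i t (hpos t ht), b0])
    (fun t ht => by simp [h.bL i t (hpos t ht), bL])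
    (fun t ht y hy => (h.dt i t (hpos t ht) y hy).const_sub _)
    (fun t ht y hy hw => by
      have h1 := ineq t ht y hy (by
        have : 0 < W y - u i t y := hw
        linarith)
      show -(d i * w i t y + u i t y * (m y - ∑ j, u j t y)) ≤
        d i * (W2 y - w i t y) + c y * (W y - u i t y)
      nlinarith)
    (fun t _ y hy => hK y hy)
    (fun y hy => by
      have := h0 y hy
      show W y - u i s y ≤ 0
      linarith)
  intro t ht x hx
  have h2 : W x - u i t x ≤ 0 := this t ht x hx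
  linarith

end

/-- positive lower and upper bounds of a positive continuous function. -/
theorem pos_bounds {L : ℝ} (hL : 0 < L) {f : ℝ → ℝ} (hf : ContinuousOn f (Icc 0 L))
    (hp : ∀ x ∈ Icc 0 L, 0 < f x) :
    ∃ lo hi : ℝ, 0 < lo ∧ 0 < hi ∧ ∀ x ∈ Icc 0 L, lo ≤ f x ∧ f x ≤ hi := by
  have hne : (Icc 0 L).Nonempty := ⟨0, le_refl 0, hL.le⟩
  obtain ⟨a, ha, hamin⟩ := isCompact_Icc.exists_isMinOn hne hf
  obtain ⟨K, hK, hKb⟩ := exists_bound hf
  refine ⟨f a, K, hp a ha, hK, fun x hx => ⟨hamin hx, ?_⟩⟩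
  exact (le_abs_self _).trans (hKb x hx)

theorem loc : LocStatement := by
  intro L m θ θ' θ'' N d i₀ hL hm hd hθ hsup ε hε
  have hθc := st_c0 hθ
  obtain ⟨τ, Th, hτ, hTh, hθb⟩ := pos_bounds hL hθc hθ.pos
  obtain ⟨K, hK, hKb⟩ := exists_bound (hm.sub hθc)
  have hmK : ∀ x ∈ Icc 0 L, m x - θ x ≤ K := fun x hx => (le_abs_self _).trans (hKb x hx)
  -- the supersolutions
  have hall : ∀ j : Fin N, ∃ (κ lo hi : ℝ) (φ φ' φ'' : ℝ → ℝ), 0 < κ ∧ 0 < lo ∧ 0 < hi ∧
      (j ≠ i₀ → Supr L m θ (d j) κ φ φ' φ'' ∧ ∀ x ∈ Icc 0 L, lo ≤ φ x ∧ φ x ≤ hi) := by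
    intro j
    by_cases hj : j = i₀
    · exact ⟨1, 1, 1, fun _ => 1, fun _ => 0, fun _ => 0, one_pos, one_pos, one_pos,
        fun h => absurd hj h⟩
    · obtain ⟨κ, φ, φ', φ'', hκ, hS⟩ := hsup j hj
      obtain ⟨lo, hi, hlo, hhi, hb⟩ := pos_bounds hL (DerivOn.cont hS.d1) hS.pos
      exact ⟨κ, lo, hi, φ, φ', φ'', hκ, hlo, hhi, fun _ => ⟨hS, hb⟩⟩
  choose κ lo hi φ φ' φ'' hκ hlo hhi hS using hall
  have : Nonempty (Fin N) := ⟨i₀⟩
  obtain ⟨jκ, hjκ⟩ := Finite.exists_min κ
  obtain ⟨jR, hjR⟩ := Finite.exists_max (fun j => hi j / lo j)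
  set R : ℝ := hi jR / lo jR with hR
  have hR0 : 0 < R := div_pos (hhi _) (hlo _)
  -- `b`
  obtain ⟨b, hb0, hb2, hbε, hbκ⟩ : ∃ b : ℝ, 0 < b ∧ b ≤ 1 / 2 ∧ b * Th < ε ∧ b * Th ≤ κ jκ := by
    refine ⟨min (1 / 2) (min (ε / (2 * Th)) (κ jκ / Th)), ?_, min_le_left _ _, ?_, ?_⟩
    · exact lt_min (by norm_num) (lt_min (by positivity) (div_pos (hκ _) hTh))
    · have h1 : min (1 / 2) (min (ε / (2 * Th)) (κ jκ / Th)) ≤ ε / (2 * Th) :=
        (min_le_right _ _).trans (min_le_left _ _)
      calc _ ≤ ε / (2 * Th) * Th := mul_le_mul_of_nonneg_right h1 hTh.le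
        _ = ε / 2 := by field_simp
        _ < ε := by linarith
    · have h1 : min (1 / 2) (min (ε / (2 * Th)) (κ jκ / Th)) ≤ κ jκ / Th :=
        (min_le_right _ _).trans (min_le_right _ _)
      calc _ ≤ κ jκ / Th * Th := mul_le_mul_of_nonneg_right h1 hTh.le
        _ = κ jκ := by field_simp
  -- `δ`
  have hN : (0 : ℝ) < N := by
    have := i₀.pos
    exact_mod_cast this
  obtain ⟨δ, hδ0, hδ1, hδ2, hδ3, hδ4⟩ : ∃ δ : ℝ, 0 < δ ∧ δ ≤ b / 2 * τ ∧ δ < ε ∧
      N * (δ * R) ≤ b / 2 * τ ∧ δ * R < ε := by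
    refine ⟨min (min (b / 2 * τ) (ε / 2)) (min (b / 2 * τ / (N * R)) (ε / (2 * R))), ?_, ?_, ?_,
      ?_, ?_⟩
    · exact lt_min (lt_min (by positivity) (by positivity)) (lt_min (by positivity)
        (by positivity))
    · exact (min_le_left _ _).trans (min_le_left _ _)
    · exact lt_of_le_of_lt ((min_le_left _ _).trans (min_le_right _ _)) (by linarith)
    · have h1 : min (min (b / 2 * τ) (ε / 2)) (min (b / 2 * τ / (N * R)) (ε / (2 * R))) ≤
          b / 2 * τ / (N * R) := (min_le_right _ _).trans (min_le_left _ _)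
      calc _ ≤ N * (b / 2 * τ / (N * R) * R) :=
            mul_le_mul_of_nonneg_left (mul_le_mul_of_nonneg_right h1 hR0.le) hN.le
        _ = b / 2 * τ := by field_simp
    · have h1 : min (min (b / 2 * τ) (ε / 2)) (min (b / 2 * τ / (N * R)) (ε / (2 * R))) ≤
          ε / (2 * R) := (min_le_right _ _).trans (min_le_right _ _)
      calc _ ≤ ε / (2 * R) * R := mul_le_mul_of_nonneg_right h1 hR0.le
        _ = ε / 2 := by field_simp
        _ < ε := by linarith
  refine ⟨δ, hδ0, ?_⟩
  intro u v w s hsol hs hinit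
  have hnn := nonneg hL hm hd hsol
  -- claim A
  have claimA : ∀ T, s ≤ T → (∀ t ∈ Icc s T, ∀ x ∈ Icc 0 L, (1 - b) * θ x ≤ u i₀ t x) →
      (∀ t ∈ Icc s T, ∀ x ∈ Icc 0 L, (∀ j, j ≠ i₀ → u j t x ≤ δ * R) ∧
        (1 - b / 2) * θ x ≤ u i₀ t x) := by
    intro T hsT hP
    have hj : ∀ j, j ≠ i₀ → ∀ t ∈ Icc s T, ∀ x ∈ Icc 0 L, u j t x ≤ δ * R := by
      intro j hj
      obtain ⟨hSj, hbj⟩ := hS j hj
      have h1 := le_stat hL hd hsol j (s := s) (T := T) (K := K + κ j) hs hsT
        (W := fun x => δ / lo j * φ j x) (W1 := fun x => δ / lo j * φ' j x)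
        (W2 := fun x => δ / lo j * φ'' j x) (c := fun x => m x - θ x + κ j)
        (fun x hx => (hSj.d1 x hx).const_mul _) (fun x hx => (hSj.d2 x hx).const_mul _)
        (by simp [hSj.b0]) (by simp [hSj.bL])
        (fun x hx => by
          have := hmK x hx
          show m x - θ x + κ j ≤ K + κ j
          linarith)
        (fun t ht x hx _ => by
          have e1 := hSj.neg x hx
          have e2 := hP t ⟨ht.1.le, ht.2⟩ x hx
          have ht0 : 0 ≤ t := hs.trans ht.1.le
          have e3 : u i₀ t x ≤ ∑ k, u k t x :=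
            Finset.single_le_sum (f := fun k => u k t x) (fun k _ => hnn k t ht0 x hx)
              (Finset.mem_univ i₀)
          have e4 : b * θ x ≤ κ j :=
            (mul_le_mul_of_nonneg_left (hθb x hx).2 hb0.le).trans (hbκ.trans (hjκ j))
          have e5 : m x - ∑ k, u k t x ≤ m x - θ x + κ j := by linarith
          have e6 : u j t x * (m x - ∑ k, u k t x) ≤ u j t x * (m x - θ x + κ j) :=
            mul_le_mul_of_nonneg_left e5 (hnn j t ht0 x hx)
          have e7 : 0 < δ / lo j := div_pos hδ0 (hlo j)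
          have e8 : δ / lo j * (d j * φ'' j x + (m x - θ x) * φ j x) ≤
              δ / lo j * (-(κ j * φ j x)) := mul_le_mul_of_nonneg_left e1 e7.le
          show d j * (δ / lo j * φ'' j x) + u j t x * (m x - ∑ k, u k t x) ≤
            (m x - θ x + κ j) * (u j t x - δ / lo j * φ j x)
          nlinarith)
        (fun x hx => by
          have e1 := (hinit x hx).2 j hj
          have e2 := (hbj x hx).1
          show u j s x ≤ δ / lo j * φ j x
          have e3 : δ ≤ δ / lo j * φ j x := by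
            rw [div_mul_eq_mul_div, le_div_iff₀ (hlo j)]
            exact mul_le_mul_of_nonneg_left e2 hδ0.le
          linarith)
      intro t ht x hx
      refine (h1 t ht x hx).trans ?_
      have e1 := (hbj x hx).2
      have e2 : hi j / lo j ≤ R := hjR j
      calc δ / lo j * φ j x ≤ δ / lo j * hi j :=
            mul_le_mul_of_nonneg_left e1 (div_pos hδ0 (hlo j)).le
        _ = δ * (hi j / lo j) := by ring
        _ ≤ δ * R := mul_le_mul_of_nonneg_left e2 hδ0.le
    have h2 := stat_le hL hd hsol i₀ (s := s) (T := T) (K := K) hs hsT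
      (W := fun x => (1 - b / 2) * θ x) (W1 := fun x => (1 - b / 2) * θ' x)
      (W2 := fun x => (1 - b / 2) * θ'' x) (c := fun x => m x - θ x)
      (fun x hx => (hθ.d1 x hx).const_mul _) (fun x hx => (hθ.d2 x hx).const_mul _)
      (by simp [hθ.b0]) (by simp [hθ.bL]) (fun x hx => hmK x hx)
      (fun t ht x hx hlt => by
        have ht0 : 0 ≤ t := hs.trans ht.1.le
        have ht' : t ∈ Icc s T := ⟨ht.1.le, ht.2⟩
        have e1 : ∑ k, u k t x = u i₀ t x + ∑ k ∈ Finset.univ.erase i₀, u k t x :=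
          (Finset.add_sum_erase _ _ (Finset.mem_univ i₀)).symm
        have e2 : ∑ k ∈ Finset.univ.erase i₀, u k t x ≤ b / 2 * τ := by
          calc ∑ k ∈ Finset.univ.erase i₀, u k t x ≤
              ∑ _k ∈ Finset.univ.erase i₀, δ * R :=
                Finset.sum_le_sum fun k hk => hj k (Finset.ne_of_mem_erase hk) t ht' x hx
            _ = (Finset.univ.erase i₀).card * (δ * R) := by
                rw [Finset.sum_const, nsmul_eq_mul]
            _ ≤ N * (δ * R) := by
                refine mul_le_mul_of_nonneg_right ?_ (by positivity)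
                have : (Finset.univ.erase i₀).card ≤ N := by
                  refine (Finset.card_le_univ _).trans ?_
                  simp
                exact_mod_cast this
            _ ≤ b / 2 * τ := hδ3
        have e3 := (hθb x hx).1
        have e4 := hnn i₀ t ht0 x hx
        have e5 := hθ.eq x hx
        have hlt' : u i₀ t x < (1 - b / 2) * θ x := hlt
        obtain ⟨ζ, hζ⟩ : ∃ ζ : ℝ, ζ = ∑ k ∈ Finset.univ.erase i₀, u k t x := ⟨_, rfl⟩
        rw [← hζ] at e1 e2
        have e6 : ζ ≤ b / 2 * θ x := e2.trans (mul_le_mul_of_nonneg_left e3 (by positivity))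
        have e7 : 0 ≤ u i₀ t x * (θ x - u i₀ t x - ζ) := mul_nonneg e4 (by linarith)
        show -(u i₀ t x * (m x - ∑ k, u k t x)) ≤
          d i₀ * ((1 - b / 2) * θ'' x) + (m x - θ x) * ((1 - b / 2) * θ x - u i₀ t x)
        rw [e1]
        have e8 : d i₀ * ((1 - b / 2) * θ'' x) = -((1 - b / 2) * (θ x * (m x - θ x))) := by
          linear_combination (1 - b / 2) * e5
        rw [e8]
        nlinarith)
      (fun x hx => by
        have e1 := (abs_lt.mp (hinit x hx).1).1
        have e3 := (hθb x hx).1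
        show (1 - b / 2) * θ x ≤ u i₀ s x
        have : b / 2 * τ ≤ b / 2 * θ x := mul_le_mul_of_nonneg_left e3 (by positivity)
        linarith)
    exact fun t ht x hx => ⟨fun j hj' => hj j hj' t ht x hx, h2 t ht x hx⟩
  -- claim P
  have claimP : ∀ T, s ≤ T → ∀ t ∈ Icc s T, ∀ x ∈ Icc 0 L, (1 - b) * θ x ≤ u i₀ t x := by
    intro T hsT
    have hsub : Icc s T ×ˢ Icc 0 L ⊆ Ici 0 ×ˢ Icc 0 L :=
      prod_mono (fun t ht => hs.trans ht.1) (fun _ h => h)
    have hK2 : IsCompact (Icc s T ×ˢ Icc 0 L) := isCompact_Icc.prod isCompact_Icc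
    have huc := hK2.uniformContinuousOn_of_continuous ((hsol.cu i₀).mono hsub)
    obtain ⟨η, hη, hηb⟩ := Metric.uniformContinuousOn_iff.mp huc (b / 2 * τ) (by positivity)
    have hstep : ∀ n : ℕ, ∀ t ∈ Icc s T, t ≤ s + n * (η / 2) → ∀ x ∈ Icc 0 L,
        (1 - b) * θ x ≤ u i₀ t x := by
      intro n
      induction n with
      | zero =>
        intro t ht htn x hx
        have hts : t = s := le_antisymm (by simpa using htn) ht.1
        subst hts
        have e1 := (abs_lt.mp (hinit x hx).1).1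
        have e3 := (hθb x hx).1
        have : b / 2 * τ ≤ b / 2 * θ x := mul_le_mul_of_nonneg_left e3 (by positivity)
        have h4 : 0 < b * θ x := mul_pos hb0 (hθ.pos x hx)
        linarith
      | succ n ih =>
        intro t ht htn x hx
        by_cases hle : t ≤ s + n * (η / 2)
        · exact ih t ht hle x hx
        push Not at hle
        set t' : ℝ := s + n * (η / 2) with ht'
        have hst' : s ≤ t' := by
          have : (0 : ℝ) ≤ n * (η / 2) := by positivity
          linarith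
        have ht'T : t' ≤ T := hle.le.trans ht.2
        have h1 := (claimA t' hst' (fun r hr y hy => ih r ⟨hr.1, hr.2.trans ht'T⟩ hr.2 y hy)
          t' ⟨hst', le_rfl⟩ x hx).2
        have h2 := hηb (t, x) ⟨ht, hx⟩ (t', x) ⟨⟨hst', ht'T⟩, hx⟩ (by
          rw [Prod.dist_eq]
          simp only [dist_self]
          rw [Real.dist_eq, max_lt_iff]
          refine ⟨?_, hη⟩
          rw [abs_of_pos (by linarith)]
          push_cast at htn
          linarith)
        rw [Real.dist_eq] at h2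
        have h3 := (abs_lt.mp h2).1
        simp only at h3
        have e3 := (hθb x hx).1
        have : b / 2 * τ ≤ b / 2 * θ x := mul_le_mul_of_nonneg_left e3 (by positivity)
        linarith
    intro t ht x hx
    obtain ⟨n, hn⟩ := exists_nat_gt ((t - s) / (η / 2))
    refine hstep n t ht ?_ x hx
    have : t - s < n * (η / 2) := by
      rwa [div_lt_iff₀ (by positivity)] at hn
    linarith
  -- upper bound
  intro t hst x hx
  have hA := claimA t hst (claimP t hst) t ⟨hst, le_rfl⟩ x hx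
  have hU := le_stat hL hd hsol i₀ (s := s) (T := t) (K := K) hs hst
      (W := fun x => (1 + b / 2) * θ x) (W1 := fun x => (1 + b / 2) * θ' x)
      (W2 := fun x => (1 + b / 2) * θ'' x) (c := fun x => m x - θ x)
      (fun x hx => (hθ.d1 x hx).const_mul _) (fun x hx => (hθ.d2 x hx).const_mul _)
      (by simp [hθ.b0]) (by simp [hθ.bL]) (fun x hx => hmK x hx)
      (fun t ht x hx hlt => by
        have ht0 : 0 ≤ t := hs.trans ht.1.le
        have e3 : u i₀ t x ≤ ∑ k, u k t x :=
          Finset.single_le_sum (f := fun k => u k t x) (fun k _ => hnn k t ht0 x hx)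
            (Finset.mem_univ i₀)
        have e4 := hnn i₀ t ht0 x hx
        have e5 := hθ.eq x hx
        have hlt' : (1 + b / 2) * θ x < u i₀ t x := hlt
        have e6 : u i₀ t x * (m x - ∑ k, u k t x) ≤ u i₀ t x * (m x - u i₀ t x) :=
          mul_le_mul_of_nonneg_left (by linarith) e4
        have e7 : 0 < b / 2 * θ x := mul_pos (by positivity) (hθ.pos x hx)
        have e9 : 0 ≤ u i₀ t x * (u i₀ t x - θ x) := mul_nonneg e4 (by linarith)
        show d i₀ * ((1 + b / 2) * θ'' x) + u i₀ t x * (m x - ∑ k, u k t x) ≤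
          (m x - θ x) * (u i₀ t x - (1 + b / 2) * θ x)
        have e8 : d i₀ * ((1 + b / 2) * θ'' x) = -((1 + b / 2) * (θ x * (m x - θ x))) := by
          linear_combination (1 + b / 2) * e5
        rw [e8]
        nlinarith)
      (fun x hx => by
        have e1 := (abs_lt.mp (hinit x hx).1).2
        have e3 := (hθb x hx).1
        show u i₀ s x ≤ (1 + b / 2) * θ x
        have : b / 2 * τ ≤ b / 2 * θ x := mul_le_mul_of_nonneg_left e3 (by positivity)
        linarith)
      t ⟨hst, le_rfl⟩ x hx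
  have hU' : u i₀ t x ≤ (1 + b / 2) * θ x := hU
  have e2 : b / 2 * θ x ≤ b / 2 * Th := mul_le_mul_of_nonneg_left (hθb x hx).2 (by positivity)
  have e3 : b / 2 * Th < ε := by
    have : 0 < b * Th := mul_pos hb0 hTh
    linarith
  refine ⟨?_, ?_⟩
  · rw [abs_lt]
    constructor
    · linarith [hA.2]
    · linarith
  · intro j hj
    rw [abs_of_nonneg (hnn j t (hs.trans hst) x hx)]
    exact lt_of_le_of_lt (hA.1 j hj) hδ4

end Pool.Agent.Lib.MP_4fbe7c_an.FC.H95
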