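import Pool.Agent.Lib.MP_4fbe7c_an.FC.Iface
import Pool.Agent.Lib.MP_4fbe7c_an.SD.WNEAR

/-!
Project FC (MP_4fbe7c_an), module PHI: strict supersolutions `θ ^ s (1 + σ χ)`.
-/

set_option autoImplicit false

open Set MeasureTheory intervalIntegral

namespace Pool.Agent.Lib.MP_4fbe7c_an.FC.H95

open Pool.Agent.Lib.MP_4fbe7c_an.SD Pool.Agent.Lib.MP_4fbe7c_an.SD.H95

theorem der_exp {L d : ℝ} {m θ θ' θ'' : ℝ → ℝ} (hθ : Steady L m d θ θ' θ'') (p : ℝ) :
    DerivOn L (fun x => Real.exp (p * Real.log (θ x)))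
      (fun x => Real.exp (p * Real.log (θ x)) * (p * (θ' x / θ x))) := by
  intro x hx
  exact (((hθ.d1 x hx).log (hθ.pos x hx).ne').const_mul p).exp

theorem phi : PhiStatement := by
  intro L d₀ D m θ θ' θ'' hL hm hnc hd₀ hdD hθ
  have hD : 0 < D := hd₀.trans hdD
  obtain ⟨s, hsdef⟩ : ∃ s : ℝ, s = d₀ / D := ⟨_, rfl⟩
  have hsD : s * D = d₀ := by rw [hsdef]; field_simp
  have hs0 : 0 < s := by rw [hsdef]; positivity
  have hs1 : s < 1 := by rw [hsdef, div_lt_one hD]; exact hdD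
  have h0m : (0 : ℝ) ∈ Icc 0 L := ⟨le_refl 0, hL.le⟩
  have hLm : L ∈ Icc 0 L := ⟨hL.le, le_refl L⟩
  have hc0 := st_c0 hθ
  have hc1 := st_c1 hθ
  have hzd := st_zeta hθ
  obtain ⟨z, hz⟩ : ∃ z : ℝ → ℝ, z = fun x => θ' x / θ x := ⟨_, rfl⟩
  obtain ⟨z1, hz1⟩ : ∃ z1 : ℝ → ℝ, z1 = fun x => θ'' x / θ x - (θ' x / θ x) ^ 2 := ⟨_, rfl⟩
  rw [← hz, ← hz1] at hzd
  have hzc : ContinuousOn z (Icc 0 L) := DerivOn.cont hzd
  have hz0 : z 0 = 0 := by rw [hz]; simp [hθ.b0]
  have hzL : z L = 0 := by rw [hz]; simp [hθ.bL]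
  have hexp : ∀ p : ℝ, DerivOn L (fun x => Real.exp (p * Real.log (θ x)))
      (fun x => Real.exp (p * Real.log (θ x)) * (p * z x)) := by
    intro p
    have := der_exp hθ p
    rw [hz]; exact this
  obtain ⟨E, hE⟩ : ∃ E : ℝ → ℝ, E = fun x => Real.exp (2 * s * Real.log (θ x)) := ⟨_, rfl⟩
  obtain ⟨Ei, hEi⟩ : ∃ E : ℝ → ℝ, E = fun x => Real.exp (-(2 * s) * Real.log (θ x)) := ⟨_, rfl⟩
  obtain ⟨A, hA⟩ : ∃ E : ℝ → ℝ, E = fun x => Real.exp (s * Real.log (θ x)) := ⟨_, rfl⟩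
  have hEc : ContinuousOn E (Icc 0 L) := by rw [hE]; exact DerivOn.cont (hexp (2 * s))
  have hEpos : ∀ x, 0 < E x := fun x => by rw [hE]; exact Real.exp_pos _
  have hApos : ∀ x, 0 < A x := fun x => by rw [hA]; exact Real.exp_pos _
  have hEE : ∀ x, Ei x * E x = 1 := fun x => by
    rw [hE, hEi]
    simp only
    rw [← Real.exp_add]
    have : -(2 * s) * Real.log (θ x) + 2 * s * Real.log (θ x) = 0 := by ring
    rw [this, Real.exp_zero]
  have hEid : DerivOn L Ei (fun x => Ei x * (-(2 * s) * z x)) := by rw [hEi]; exact hexp _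
  have hAd : DerivOn L A (fun x => A x * (s * z x)) := by rw [hA]; exact hexp _
  -- the constant `c`
  have hIE : 0 < ∫ x in (0)..L, E x :=
    intervalIntegral.integral_pos hL hEc (fun y _ => (hEpos y).le) ⟨0, h0m, hEpos 0⟩
  have hEzc : ContinuousOn (fun x => E x * z x ^ 2) (Icc 0 L) := hEc.mul (hzc.pow 2)
  have hIz : 0 < ∫ x in (0)..L, E x * z x ^ 2 := by
    by_contra hle
    rw [not_lt] at hle
    have h1 := eq_zero_of_integral hL hEzc
      (fun x _ => mul_nonneg (hEpos x).le (sq_nonneg _)) hle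
    have h2 : ∀ x ∈ Icc 0 L, θ' x ^ 2 = 0 := by
      intro x hx
      have h3 := h1 x hx
      rcases mul_eq_zero.mp h3 with h4 | h4
      · exact absurd h4 (hEpos x).ne'
      · have h5 : z x = 0 := by simpa using h4
        rw [hz] at h5
        rcases div_eq_zero_iff.mp h5 with h6 | h6
        · rw [h6]; ring
        · exact absurd h6 (hθ.pos x hx).ne'
    have h7 := int_sq_pos hL hnc hθ
    have h8 : ∫ x in (0)..L, θ' x ^ 2 = 0 := by
      rw [intervalIntegral.integral_congr (g := fun _ => (0 : ℝ))]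
      · simp
      · intro x hx
        rw [uIcc_of_le hL.le] at hx
        exact h2 x hx
    linarith
  obtain ⟨c, hcdef⟩ : ∃ c : ℝ, c = (∫ x in (0)..L, E x) / (∫ x in (0)..L, E x * z x ^ 2) :=
    ⟨_, rfl⟩
  have hc : 0 < c := by rw [hcdef]; exact div_pos hIE hIz
  have hceq : c * (∫ x in (0)..L, E x * z x ^ 2) = ∫ x in (0)..L, E x := by
    rw [hcdef]; field_simp
  have hfc : ContinuousOn (fun x => E x * (c * z x ^ 2 - 1)) (Icc 0 L) :=
    hEc.mul ((continuousOn_const.mul (hzc.pow 2)).sub continuousOn_const)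
  obtain ⟨G, hG, hG0⟩ := exists_prim hL hfc
  have hGL : G L = 0 := by
    have h1 := ftc hG hfc (le_refl 0) hL.le (le_refl L)
    rw [hG0, sub_zero] at h1
    rw [← h1]
    have h2 : (∫ x in (0)..L, E x * (c * z x ^ 2 - 1)) =
        c * (∫ x in (0)..L, E x * z x ^ 2) - ∫ x in (0)..L, E x := by
      rw [← intervalIntegral.integral_const_mul, ← intervalIntegral.integral_sub
        ((intble hEzc h0m hLm).const_mul c) (intble hEc h0m hLm)]
      apply intervalIntegral.integral_congr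
      intro x _
      simp only
      ring
    rw [h2, hceq, sub_self]
  -- the function `h = χ'`
  obtain ⟨h, hh⟩ : ∃ h : ℝ → ℝ, h = fun x => Ei x * G x := ⟨_, rfl⟩
  have hhd : DerivOn L h (fun x => -(2 * s * z x * h x) + (c * z x ^ 2 - 1)) := by
    intro x hx
    have h1 := (hEid x hx).mul (hG x hx)
    rw [hh]
    refine h1.congr_deriv ?_
    have h2 : Ei x * (E x * (c * z x ^ 2 - 1)) = c * z x ^ 2 - 1 := by
      rw [← mul_assoc, hEE, one_mul]
    rw [h2]
    ring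
  have hhc : ContinuousOn h (Icc 0 L) := DerivOn.cont hhd
  have hh0 : h 0 = 0 := by rw [hh]; simp [hG0]
  have hhL : h L = 0 := by rw [hh]; simp [hGL]
  obtain ⟨χ, hχ, -⟩ := exists_prim hL hhc
  obtain ⟨K1, hK1, hK1b⟩ := exists_bound (DerivOn.cont hχ)
  obtain ⟨σ, hσdef⟩ : ∃ σ : ℝ, σ = min (1 / (2 * K1)) (d₀ * (1 - s) / (2 * (D * c))) := ⟨_, rfl⟩
  have h1s : 0 < 1 - s := by linarith
  have hσ : 0 < σ := by
    rw [hσdef]
    exact lt_min (by positivity) (by positivity)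
  have hσ1 : σ * K1 ≤ 1 / 2 := by
    calc σ * K1 ≤ 1 / (2 * K1) * K1 :=
          mul_le_mul_of_nonneg_right (by rw [hσdef]; exact min_le_left _ _) hK1.le
      _ = 1 / 2 := by field_simp
  have hσ2 : D * σ * c ≤ d₀ * (1 - s) / 2 := by
    calc D * σ * c = σ * (D * c) := by ring
      _ ≤ d₀ * (1 - s) / (2 * (D * c)) * (D * c) :=
          mul_le_mul_of_nonneg_right (by rw [hσdef]; exact min_le_right _ _) (by positivity)
      _ = d₀ * (1 - s) / 2 := by field_simp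
  have hk : ∀ x ∈ Icc 0 L, |σ * χ x| ≤ 1 / 2 := by
    intro x hx
    rw [abs_mul, abs_of_pos hσ]
    exact (mul_le_mul_of_nonneg_left (hK1b x hx) hσ.le).trans hσ1
  refine ⟨2 / 3 * (D * σ), fun x => A x * (1 + σ * χ x),
    fun x => A x * (s * z x * (1 + σ * χ x) + σ * h x),
    fun x => A x * (s * z x) * (s * z x * (1 + σ * χ x) + σ * h x) +
      A x * (s * z1 x * (1 + σ * χ x) + s * z x * (σ * h x) +
        σ * (-(2 * s * z x * h x) + (c * z x ^ 2 - 1))), by positivity, ?_⟩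
  refine ⟨?_, ?_, ?_, ?_, ?_, ?_⟩
  · intro x hx
    have := (abs_le.mp (hk x hx)).1
    exact mul_pos (hApos x) (by linarith)
  · intro x hx
    have h1 := (hAd x hx).mul (((hχ x hx).const_mul σ).const_add 1)
    refine h1.congr_deriv ?_
    ring
  · intro x hx
    have h1 := (hAd x hx).mul ((((hzd x hx).const_mul s).mul
      (((hχ x hx).const_mul σ).const_add 1)).add ((hhd x hx).const_mul σ))
    refine h1.congr_deriv ?_
    simp only [Pi.mul_apply, Pi.add_apply]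
  · simp [hz0, hh0]
  · simp [hzL, hhL]
  · intro x hx
    have hpx := hθ.pos x hx
    have hkx := abs_le.mp (hk x hx)
    obtain ⟨k, hkdef⟩ : ∃ k : ℝ, k = σ * χ x := ⟨_, rfl⟩
    have hmθ : m x - θ x = -(d₀ * (θ'' x / θ x)) := by
      have := hθ.eq x hx
      field_simp
      linarith
    have hz1x : z1 x = θ'' x / θ x - z x ^ 2 := by rw [hz1, hz]
    have key : D * (A x * (s * z x) * (s * z x * (1 + σ * χ x) + σ * h x) +
        A x * (s * z1 x * (1 + σ * χ x) + s * z x * (σ * h x) +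
        σ * (-(2 * s * z x * h x) + (c * z x ^ 2 - 1)))) +
        (m x - θ x) * (A x * (1 + σ * χ x)) =
        A x * (-(d₀ * (1 - s) * z x ^ 2 * (1 + σ * χ x)) + D * σ * (c * z x ^ 2 - 1)) := by
      rw [hmθ, hz1x, ← hsD]
      ring
    rw [key]
    rw [← hkdef] at hkx ⊢
    have e1 : -(d₀ * (1 - s) * z x ^ 2 * (1 + k)) + D * σ * (c * z x ^ 2 - 1) ≤ -(D * σ) := by
      have p1 : 0 ≤ z x ^ 2 := sq_nonneg _
      have p2 : 0 < d₀ * (1 - s) := by positivity
      have p3 : d₀ * (1 - s) / 2 * z x ^ 2 ≤ d₀ * (1 - s) * z x ^ 2 * (1 + k) := by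
        have : d₀ * (1 - s) * z x ^ 2 * (1 / 2) ≤ d₀ * (1 - s) * z x ^ 2 * (1 + k) :=
          mul_le_mul_of_nonneg_left (by linarith [hkx.1]) (mul_nonneg p2.le p1)
        linarith
      have p4 : D * σ * c * z x ^ 2 ≤ d₀ * (1 - s) / 2 * z x ^ 2 :=
        mul_le_mul_of_nonneg_right hσ2 p1
      nlinarith
    have e2 : A x * (1 + k) ≤ 3 / 2 * A x := by
      have := hApos x
      nlinarith [hkx.2]
    calc A x * (-(d₀ * (1 - s) * z x ^ 2 * (1 + k)) + D * σ * (c * z x ^ 2 - 1))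
        ≤ A x * (-(D * σ)) := mul_le_mul_of_nonneg_left e1 (hApos x).le
      _ = -(2 / 3 * (D * σ) * (3 / 2 * A x)) := by ring
      _ ≤ -(2 / 3 * (D * σ) * (A x * (1 + k))) := by
          have : 2 / 3 * (D * σ) * (A x * (1 + k)) ≤ 2 / 3 * (D * σ) * (3 / 2 * A x) :=
            mul_le_mul_of_nonneg_left e2 (by positivity)
          linarith

end Pool.Agent.Lib.MP_4fbe7c_an.FC.H95
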